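import Pool.Agent.Lib.MP_b5021c_nt.IfaceL2

/-!
# Board b5, row JVT: the induction step in class V
-/

namespace Pool.Agent.B5.H87

open Pool.Agent.B5
open Pool.Agent.MP_b5021c_nt (Eis)

theorem bVL_mono : Monotone bVL := by
  intro x y hxy
  unfold bVL
  apply max_le_max le_rfl
  linarith

theorem one_le_bVL (x : ℝ) : 1 ≤ bVL x := le_max_left _ _

theorem exists_pivot {P L : Type} [AddCommGroup L] {phi : L →+ (P → ℤ)}
    (hinj : Function.Injective phi) {S : L} (hS : S ≠ 0) (hb : Bin phi S) :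
    ∃ i0, co phi i0 S = 1 := by
  by_contra hcon
  push Not at hcon
  apply hS
  apply hinj
  rw [map_zero]
  funext i
  rcases hb i with h | h
  · exact h
  · exact absurd h (hcon i)

theorem jvt (hE2 : E2S) (hLOV : LOVS) (hFL : FLS) (hCLO : CLOS) (hJVN : JVNS) (hNVE : NVES)
    (hMV : MVS) (hMm : MmulS) : JVTS := by
  intro P L _ _ _ _ _ phi D N hD hV htwo hB
  obtain ⟨hz, -, -, -, -, hray⟩ := hE2 Eis P L phi D hD htwo
  have hMQ : M (D.coeff 0) = N := (((hMV Eis).1 N _ hV)).2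
  have hN1 : 1 ≤ N := hV.1
  -- the loads
  have hex : ∀ S : L, ∃ e : (RO Eis)ˣ, Ray D S →
      ((∃ e₂ : (RO Eis)ˣ, e ≠ e₂ ∧
        (∃ N' : ℝ, N' ≤ N - 1 / 4 ∧ ClassV N' (D.coeff 0 + (e : RO Eis) * D.coeff S)) ∧
        (∃ N' : ℝ, N' ≤ N - 1 / 4 ∧ ClassV N' (D.coeff 0 + (e₂ : RO Eis) * D.coeff S))) ∨
      (∃ N' : ℝ, N' ≤ 63 / 100 * N ∧ ClassV N' (D.coeff 0 + (e : RO Eis) * D.coeff S))) := by
    intro S
    by_cases hS : Ray D S
    · rcases hLOV N (D.coeff 0) (D.coeff S) hV hS.1 hz (hray S hS).1 (hray S hS).2 with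
        ⟨e₁, e₂, h12, h1, h2⟩ | ⟨e₁, N', hN', h1⟩
      · exact ⟨e₁, fun _ => Or.inl ⟨e₂, h12, h1, h2⟩⟩
      · exact ⟨e₁, fun _ => Or.inr ⟨N', hN', h1⟩⟩
    · exact ⟨1, fun h => absurd h hS⟩
  choose eta heta using hex
  have hne : ∀ S, Ray D S → D.coeff 0 + (eta S : RO Eis) * D.coeff S ≠ 0 := by
    intro S hS
    rcases heta S hS with ⟨-, -, ⟨N', -, h⟩, -⟩ | ⟨N', -, h⟩
    · exact ((hMV Eis).1 N' _ h).1
    · exact ((hMV Eis).1 N' _ h).1
  obtain ⟨S, g, hRS, hdim, hM, hother⟩ := hFL Eis P L phi D eta hD htwo hne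
  obtain ⟨i0, hi0⟩ := exists_pivot hD.inj hRS.2.1 (hD.bin _ hRS.1)
  -- `√3 ≤ N`
  have hN3 : Real.sqrt 3 ≤ N := by
    rcases hNVE N _ hV with h | h
    · exfalso
      rcases heta S hRS with ⟨-, -, ⟨N', hN', h'⟩, -⟩ | ⟨N', hN', h'⟩
      · have := h'.1
        linarith
      · have := h'.1
        linarith
    · exact h
  have fac : ∀ (e : (RO Eis)ˣ) (N' : ℝ), N' ≤ N - 1 / 4 →
      ClassV N' (D.coeff 0 + (e : RO Eis) * D.coeff S) →
      ∃ (m : ℕ) (N'' : Fin m → ℝ) (l : ℕ), (∀ i, Real.sqrt 3 ≤ N'' i) ∧ ∏ i, N'' i ≤ N' ∧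
        (l : ℝ) * ∏ i, N'' i ≤ 2 * N ∧
        (rk (supp (cl (co phi i0) S hi0 e D)) : ℝ) ≤ 1 + l + ∑ i, bVL (N'' i) := by
    intro e N' hN' hcl
    have hcc : CC phi D S i0 e := ⟨hD, htwo, hRS, hi0, ((hMV Eis).1 N' _ hcl).1⟩
    obtain ⟨m, N'', l, h1, h2, h3, h4⟩ := (hCLO Eis P L phi D S i0 e hi0 hcc).1 N' hcl bVL bVL_mono
      one_le_bVL (fun x hx => hB x (le_trans hx hN'))
    refine ⟨m, N'', l, ?_, h2, ?_, h4⟩
    · intro i
      obtain ⟨hi1, Q', hQ'⟩ := h1 i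
      rcases hNVE _ _ hQ' with h | h
      · linarith
      · exact h
    · rw [hMQ] at h3
      exact h3
  rcases heta S hRS with ⟨e₂, he12, ⟨N₁, hN₁, hc₁⟩, ⟨N₂, hN₂, hc₂⟩⟩ | ⟨N₁, hN₁, hc₁⟩
  · -- light
    rcases Nat.eq_zero_or_pos g with hg | hg
    · obtain ⟨m, N'', l, h1, h2, h3, h4⟩ := fac (eta S) N₁ hN₁ hc₁
      have h5 := (hJVN N m N'' l hN3 h1 h3).1 (le_trans h2 hN₁)
      have h6 : (Module.finrank ℤ L : ℝ) = rk (supp (cl (co phi i0) S hi0 (eta S) D)) + 1 := by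
        have h7 := hdim i0 hi0
        rw [hg] at h7
        exact_mod_cast h7
      linarith
    · obtain ⟨m, N'', l, h1, h2, h3, h4⟩ := fac e₂ N₂ hN₂ hc₂
      have h5 := (hJVN N m N'' l hN3 h1 h3).1 (le_trans h2 hN₂)
      have h6 : (Module.finrank ℤ L : ℝ) = rk (supp (cl (co phi i0) S hi0 e₂ D)) + 1 := by
        exact_mod_cast hother hg e₂ (fun h => he12 h.symm) i0 hi0
      linarith
  · -- heavy
    have hN₁' : N₁ ≤ N - 1 / 4 := by linarith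
    obtain ⟨m, N'', l, h1, h2, h3, h4⟩ := fac (eta S) N₁ hN₁' hc₁
    have h5 := (hJVN N m N'' l hN3 h1 h3).2 (le_trans h2 hN₁)
    have h6 : (Module.finrank ℤ L : ℝ) =
        rk (supp (cl (co phi i0) S hi0 (eta S) D)) + 1 + g := by
      exact_mod_cast hdim i0 hi0
    have h7 : (g : ℝ) ≤ 1 + N := by
      rcases Nat.eq_zero_or_pos g with hg | hg
      · rw [hg]
        push_cast
        linarith
      · have h8 : 1 ≤ M (D.coeff S) := (hMm Eis).2.1 _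
        rw [hMQ] at hM
        have h9 : (1 : ℝ) ≤ g := by exact_mod_cast hg
        nlinarith
    linarith

end Pool.Agent.B5.H87
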