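import Pool.Agent.Lib.MP_b5021c_nt.IfaceE5
import Pool.Agent.Lib.MP_b5021c_nt.B.H88.LPA

/-! Board b5, chapter E5, row LA6: loads of type A with both bounds (after helper29's `la5`). -/

namespace Pool.Agent.B5.H87

open Polynomial Pool.Agent.B5
open Pool.Agent.MP_b5021c_nt (Eis)

/-- Row E5_LA6. -/
theorem la6 (hPCZ : PCZS) : La6S := by
  intro θ q f s r T c hθ hD h0
  have hq0 := H88.eval_zero_s hD
  have hs1 : ‖s.eval 0‖ = 1 := by rw [← hq0]; exact hD.q0
  obtain ⟨-, hVc, hVne, hcard⟩ := H88.lpa_common hPCZ hD (1 : Eisˣ)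
  simp only [Units.val_one, one_mul, map_one] at hVc hVne hcard
  have h0' : (q + f).coeff 0 = 0 := by rw [coeff_add, h0]
  obtain ⟨E, hE⟩ := X_dvd_iff.mpr h0'
  obtain ⟨Ec, hEc⟩ : ∃ Ec : ℂ[X], Ec = E.map Eis.emb := ⟨_, rfl⟩
  have hmap : (q + f).map Eis.emb = X * Ec := by
    rw [hE, Polynomial.map_mul, map_X, hEc]
  rw [hmap] at hVc hVne hcard
  have hEne : Ec ≠ 0 := by
    rintro h1
    rw [h1, mul_zero] at hVne
    exact hVne rfl
  have hEz : ∀ z : ℂ, ‖z‖ < 1 → Ec.eval z ≠ 0 := by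
    intro z hz h1
    rw [roots_mul hVne, roots_X, Multiset.filter_add, Multiset.card_add] at hcard
    have h2 : 0 < (Ec.roots.filter (fun x => ‖x‖ < 1)).card := by
      apply Multiset.card_pos_iff_exists_mem.mpr
      refine ⟨z, ?_⟩
      rw [Multiset.mem_filter]
      exact ⟨(mem_roots hEne).mpr h1, hz⟩
    have h3 : (({0} : Multiset ℂ).filter (fun x => ‖x‖ < 1)).card = 1 := by
      rw [Multiset.filter_eq_self.mpr, Multiset.card_singleton]
      intro a ha
      rw [Multiset.mem_singleton] at ha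
      rw [ha, norm_zero]
      exact one_pos
    omega
  have hE0 : Eis.emb (E.coeff 0) = Ec.eval 0 := by
    rw [hEc, ← coeff_zero_eq_eval_zero, coeff_map]
  have hEc0 : E.coeff 0 ≠ 0 := by
    intro h1
    have h2 := hEz 0 (by simp)
    rw [← hE0, h1, map_zero] at h2
    exact h2 rfl
  have h1 := congrArg (eval 0) hVc
  simp only [eval_add, eval_mul, eval_sub, eval_one, eval_C, eval_X, zero_mul, mul_zero,
    sub_zero, one_mul] at h1
  have h2 := congrArg (fun p : ℂ[X] => (derivative p).eval 0) hVc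
  simp only [derivative_add, derivative_mul, derivative_sub, derivative_one, derivative_C,
    derivative_X, eval_add, eval_mul, eval_sub, eval_one, eval_C, eval_X, zero_mul,
    mul_zero, sub_zero, one_mul, zero_add, add_zero, zero_sub, mul_one, eval_neg] at h2
  have h3 : Ec.eval 0 * s.eval 0 = (T * c * s.eval 0 ^ 2 +
      ((derivative r).eval 0 * s.eval 0 - r.eval 0 * (derivative s).eval 0)) := by
    linear_combination s.eval 0 * h2 + (T * s.eval 0 - (derivative s).eval 0) * h1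
  have h4 : ‖Ec.eval 0‖ = ‖Ec.eval 0 * s.eval 0‖ := by rw [norm_mul, hs1, mul_one]
  have h5 : ‖Ec.eval 0‖ * ‖s.eval 0‖ ^ 2 = ‖Ec.eval 0‖ := by rw [hs1]; ring
  have h6 : ‖T * c * s.eval 0 ^ 2‖ = ‖c‖ * θ * ‖s.eval 0‖ ^ 2 := by
    rw [norm_mul, norm_mul, norm_pow, hD.nT, hs1]
    ring
  refine ⟨‖Eis.emb (E.coeff 0)‖, Eis.one_le hEc0, ?_, ?_, 0, q, E, ?_, ?_, hD.q0, rfl, ?_⟩
  · rw [hE0, h5, h4, h3, ← h6]
    exact norm_add_le _ _
  · rw [hE0, h5, h4, h3, ← h6]
    have h7 := norm_sub_le (T * c * s.eval 0 ^ 2 +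
        ((derivative r).eval 0 * s.eval 0 - r.eval 0 * (derivative s).eval 0))
      ((derivative r).eval 0 * s.eval 0 - r.eval 0 * (derivative s).eval 0)
    rw [add_sub_cancel_right] at h7
    exact h7
  · rw [LaurentPolynomial.T_zero, one_mul]
  · rw [hE, map_mul, toLaurent_X, zero_add]
  · intro z hz
    have h1 := hEz z hz
    rw [hEc] at h1
    exact h1

end Pool.Agent.B5.H87
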