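import Pool.Agent.Lib.MP_b5021c_nt.IfaceE5

/-!
# Board b5, stage 3, rows E5_LB5 and E5_LC5: loads of type B and of type C
-/

namespace Pool.Agent.B5.H87

open Polynomial
open Pool.Agent.MP_b5021c_nt (Eis)

/-- Row E5_LB5. -/
theorem lb5 (hRt : Rt5S) (hNb : Nb5S) (hNr : Nr5S) : Lb5S := by
  intro θ q f s r T c x y hθ hd hxy
  have hT : ‖T‖ = θ := hd.nT
  have hθ0 : 0 < θ := by linarith
  have hTh : 1000000 ≤ ‖T‖ := by rw [hT]; exact hθ
  have hs0 : s.eval 0 ≠ 0 := hd.s0 0 (by simp)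
  have hh0 : ‖r.eval 0 / s.eval 0‖ ≤ 1 := by
    rw [norm_div, div_le_one (norm_pos_iff.mpr hs0)]
    exact hd.h0
  have hxy' : c * (starRingEnd ℂ) T = (‖T‖ : ℂ) * ((x : ℂ) + (y : ℂ) * Complex.I) := by
    rw [hT]; exact hxy
  have hre : (c * (starRingEnd ℂ) T).re = θ * x := by
    rw [hxy]
    simp
  refine ⟨fun hc => ?_, fun hc1 hc2 => ?_, fun hc1 hc2 hx => ?_⟩
  · obtain ⟨T', h, h1, h2, h3, h4, h5⟩ := hRt θ q f s r T c 1 hθ hd
      (Or.inl ⟨rfl, by linarith⟩)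
    rw [pow_one] at h4 h5
    obtain ⟨hA, hB⟩ := hNb T T' c h (r.eval 0 / s.eval 0) x y hTh (by rw [hT]; exact h1) h2 hh0 h3
      hc h4 hxy'
    rw [hT] at hA hB
    refine ⟨‖T'‖, h1, hA, fun hu => hB ?_, h5⟩
    have hf0 : Eis.emb (f.coeff 0) = c * s.eval 0 + r.eval 0 := by
      have h6 := congrArg (fun p : ℂ[X] => p.eval 0) hd.fs
      simp only [eval_add, eval_mul, eval_sub, eval_one, eval_C, eval_X, mul_zero, sub_zero,
        one_mul] at h6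
      rw [← h6, ← coeff_zero_eq_eval_zero, coeff_map]
    have hq0 : Eis.emb (q.coeff 0) = s.eval 0 := by
      have h6 := congrArg (fun p : ℂ[X] => p.eval 0) hd.qs
      simp only [eval_mul, eval_sub, eval_one, eval_C, eval_X, mul_zero, sub_zero,
        one_mul] at h6
      rw [← h6, ← coeff_zero_eq_eval_zero, coeff_map]
    have hcr : c + r.eval 0 / s.eval 0 = Eis.emb (f.coeff 0) / s.eval 0 := by
      rw [hf0]
      field_simp
    rw [hcr, norm_div, Eis.norm_emb_unit hu, ← hq0, hd.q0, div_one]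
  · obtain ⟨T', h, h1, h2, h3, h4, h5⟩ := hRt θ q f s r T c 1 hθ hd
      (Or.inl ⟨rfl, by linarith⟩)
    rw [pow_one] at h4 h5
    obtain ⟨hA, -⟩ := hNr T T' c h hTh (by rw [hT]; exact h1) h2 h4
    rw [hT] at hA
    refine ⟨‖T'‖, h1, fun t ht1 ht2 htx => hA hc1 hc2 t ht1 ht2 ?_, h5⟩
    rw [hre]
    nlinarith
  · obtain ⟨T', h, h1, h2, h3, h4, h5⟩ := hRt θ q f s r T c 1 hθ hd
      (Or.inl ⟨rfl, by linarith⟩)
    rw [pow_one] at h4 h5
    obtain ⟨-, hB⟩ := hNr T T' c h hTh (by rw [hT]; exact h1) h2 h4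
    rw [hT] at hB
    refine ⟨‖T'‖, h1, hB hc1 hc2 ?_, h5⟩
    rw [hre]
    nlinarith

/-- Row E5_LC5. -/
theorem lc5 (hRt : Rt5S) (hNc : Nc5S) : Lc5S := by
  intro θ q f s r T c hθ hd hc hre
  have hT : ‖T‖ = θ := hd.nT
  have hTh : 1000000 ≤ ‖T‖ := by rw [hT]; exact hθ
  obtain ⟨T', h, h1, h2, h3, h4, h5⟩ := hRt θ q f s r T c 2 hθ hd (Or.inr rfl)
  have hcT : ‖c‖ ≤ ‖T‖ := by
    have h6 := hd.cT
    have h7 : 0 < 1 / θ := by positivity
    rw [hT]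
    linarith
  have hA := hNc T T' c h hTh (by rw [hT]; exact h1) h2 (by rw [hT]; exact hc) hcT
    (by rw [hT]; exact hre) h4
  rw [hT] at hA
  exact ⟨‖T'‖, h1, hA, h5⟩

end Pool.Agent.B5.H87
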