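import Pool.Agent.Lib.MP_b5021c_nt.IfaceE5

/-!
# Board b5, stage 3, row E5_PV5: the unit of the load
-/

namespace Pool.Agent.B5.H87

open Polynomial
open Pool.Agent.MP_b5021c_nt (Eis)

/-- Row E5_PV5. -/
theorem pv5 : Pv5S := by
  intro θ q f s r T c v hd
  have hvn : ‖Eis.emb (v : Eis)‖ = 1 := Eis.norm_emb_unit v.isUnit
  have hfe : ∀ z : ℂ, ((C (v : Eis) * f).map Eis.emb).eval z =
      Eis.emb (v : Eis) * (f.map Eis.emb).eval z := by
    intro z
    rw [Polynomial.map_mul, Polynomial.map_C, eval_mul, eval_C]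
  have hfn : ∀ z : ℂ, ‖((C (v : Eis) * f).map Eis.emb).eval z‖ = ‖(f.map Eis.emb).eval z‖ := by
    intro z
    rw [hfe, norm_mul, hvn, one_mul]
  have hrn : ∀ z : ℂ, ‖(C (Eis.emb (v : Eis)) * r).eval z‖ = ‖r.eval z‖ := by
    intro z
    rw [eval_mul, eval_C, norm_mul, hvn, one_mul]
  refine ⟨hd.th, hd.q0, ?_, hd.nz, hd.root, hd.nT, ?_, ?_, hd.qs, ?_, hd.s0, ?_, ?_, ?_, ?_⟩
  · rw [coeff_C_mul]
    exact mul_ne_zero v.ne_zero hd.f0
  · intro z hz
    rw [hfn]
    exact hd.le z hz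
  · obtain ⟨z, hz, h⟩ := hd.ne
    exact ⟨z, hz, by rw [hfn]; exact h⟩
  · rw [Polynomial.map_mul, Polynomial.map_C, hd.fs, C_mul]
    ring
  · intro z hz
    rw [hrn]
    exact hd.r3 z hz
  · rw [norm_mul, hvn, one_mul]
    exact hd.cT
  · rw [hrn]
    exact hd.h0
  · have h1 : (derivative (C (Eis.emb (v : Eis)) * r)).eval 0 * s.eval 0 -
        (C (Eis.emb (v : Eis)) * r).eval 0 * (derivative s).eval 0 =
        Eis.emb (v : Eis) * ((derivative r).eval 0 * s.eval 0 -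
          r.eval 0 * (derivative s).eval 0) := by
      rw [derivative_C_mul, eval_mul, eval_mul, eval_C]
      ring
    rw [h1, norm_mul, hvn, one_mul]
    exact hd.h1

end Pool.Agent.B5.H87
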