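import Pool.Agent.Lib.MP_b5021c_nt.E.H29.Mp

/-!
# Board b5, all theta, the one-variable part of the drop case of `K = 3` (helper87)

`E(0) = 2`, `p(0) = 1`, `E` zero-free in the open disc, `|p| ≤ |E|` on the circle, not identically
equal: `p(1/2) ≤ 3 (E(1/2) - p(1/2))`.
-/

namespace Pool.Agent.B5.H87.B3d

open Polynomial Metric
open scoped Real

/-- Evaluation of an integer polynomial at a complex number. -/
noncomputable def ev (p : ℤ[X]) (z : ℂ) : ℂ := (p.map (Int.castRingHom ℂ)).eval z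

lemma ev_sub (p q : ℤ[X]) (z : ℂ) : ev (p - q) z = ev p z - ev q z := by
  simp [ev]

lemma ev_zero (p : ℤ[X]) : ev p 0 = ((p.coeff 0 : ℤ) : ℂ) := by
  unfold ev
  rw [← coeff_zero_eq_eval_zero, coeff_map]
  rfl

lemma ev_cont (p : ℤ[X]) : Continuous (ev p) := by
  unfold ev
  fun_prop

lemma ev_diff (p : ℤ[X]) : Differentiable ℂ (ev p) := by
  unfold ev
  exact Polynomial.differentiable _

/-- The remainders of the division of `p` by `c`, ascending powers, `c(0) = 1`. -/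
noncomputable def Rm (p c : ℤ[X]) : ℕ → ℤ[X]
  | 0 => p
  | n + 1 => divX (Rm p c n - C ((Rm p c n).coeff 0) * c)

/-- The coefficients of `p / c`. -/
noncomputable def uu (p c : ℤ[X]) (n : ℕ) : ℤ := (Rm p c n).coeff 0

lemma rm_succ (p c : ℤ[X]) (hc : c.coeff 0 = 1) (n : ℕ) :
    Rm p c n = C (uu p c n) * c + X * Rm p c (n + 1) := by
  have h1 : (Rm p c n - C ((Rm p c n).coeff 0) * c).coeff 0 = 0 := by
    rw [coeff_sub, coeff_C_mul, hc]
    ring
  have h2 := X_mul_divX_add (Rm p c n - C ((Rm p c n).coeff 0) * c)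
  rw [h1, C_0, add_zero] at h2
  have h3 : X * Rm p c (n + 1) = Rm p c n - C ((Rm p c n).coeff 0) * c := h2
  rw [h3]
  unfold uu
  ring

lemma ev_rm (p c : ℤ[X]) (hc : c.coeff 0 = 1) (n : ℕ) (z : ℂ) :
    ev p z = (∑ k ∈ Finset.range n, ((uu p c k : ℤ) : ℂ) * z ^ k) * ev c z +
      z ^ n * ev (Rm p c n) z := by
  induction n with
  | zero => simp [Rm]
  | succ n ih =>
    have h1 : ev (Rm p c n) z = ((uu p c n : ℤ) : ℂ) * ev c z + z * ev (Rm p c (n + 1)) z := by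
      conv_lhs => rw [rm_succ p c hc n]
      simp [ev]
    rw [ih, h1, Finset.sum_range_succ]
    ring

lemma cavg_pow {r : ℝ} (m : ℕ) (hm : 1 ≤ m) :
    Real.circleAverage (fun z : ℂ => z ^ m) 0 r = 0 := by
  have h : DiffContOnCl ℂ (fun z : ℂ => z ^ m) (ball 0 |r|) :=
    (differentiable_pow m).diffContOnCl
  rw [h.circleAverage, zero_pow (by omega)]

lemma cavg_inv {r : ℝ} (m : ℕ) (hm : 1 ≤ m) :
    Real.circleAverage (fun z : ℂ => (z⁻¹) ^ m) 0 r = 0 := by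
  rw [Real.circleAverage_eq_circleAverage_zero_one]
  have h1 : (fun z : ℂ => ((r * z + 0)⁻¹) ^ m) = fun z : ℂ => ((r : ℂ)⁻¹) ^ m • (z⁻¹) ^ m := by
    funext z
    rw [add_zero, mul_inv, mul_pow, smul_eq_mul]
  rw [h1, Real.circleAverage_fun_smul]
  have h2 := Real.circleAverage_zero_one_congr_inv (f := fun z : ℂ => z ^ m)
  rw [h2, cavg_pow m hm, smul_zero]

lemma cint_cont {f : ℂ → ℂ} {r : ℝ} (hr : 0 < r) (hf : ContinuousOn f (sphere 0 r)) :
    CircleIntegrable f 0 r := hf.circleIntegrable hr.le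

lemma csm {f : ℂ → ℂ} {s : Set ℂ} (a : ℂ) (hf : ContinuousOn f s) :
    ContinuousOn (fun z => a • f z) s := by
  simp only [smul_eq_mul]
  exact continuousOn_const.mul hf

lemma avg3 {f g h : ℂ → ℂ} {r : ℝ} (hf : CircleIntegrable f 0 r) (hg : CircleIntegrable g 0 r)
    (hh : CircleIntegrable h 0 r) :
    Real.circleAverage (fun z => f z - g z - h z) 0 r =
      Real.circleAverage f 0 r - Real.circleAverage g 0 r - Real.circleAverage h 0 r := by
  have h1 := Real.circleAverage_fun_sub (hf.sub hg) hh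
  have h2 := Real.circleAverage_fun_sub hf hg
  have h3 : Real.circleAverage (fun z => f z - g z - h z) 0 r =
      Real.circleAverage (fun z => (f - g) z - h z) 0 r := rfl
  have h4 : Real.circleAverage (f - g) 0 r = Real.circleAverage (fun z => f z - g z) 0 r := rfl
  rw [h3, h1, h4, h2]

lemma quo_diff {p c : ℤ[X]} (hcz : ∀ z : ℂ, ‖z‖ < 1 → ev c z ≠ 0) {z : ℂ} (hz : ‖z‖ < 1) :
    DifferentiableAt ℂ (fun z => ev p z / ev c z) z :=
  (ev_diff p z).div (ev_diff c z) (hcz z hz)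

lemma quo_dcc {p c : ℤ[X]} (hcz : ∀ z : ℂ, ‖z‖ < 1 → ev c z ≠ 0) {r : ℝ} (hr : 0 < r)
    (hr1 : r < 1) : DiffContOnCl ℂ (fun z => ev p z / ev c z) (ball 0 r) := by
  apply DifferentiableOn.diffContOnCl
  rw [closure_ball _ hr.ne']
  intro z hz
  exact (quo_diff hcz ((mem_closedBall_zero_iff.mp hz).trans_lt hr1)).differentiableWithinAt

lemma quo_cont {p c : ℤ[X]} (hcz : ∀ z : ℂ, ‖z‖ < 1 → ev c z ≠ 0) {r : ℝ}
    (hr1 : r < 1) : ContinuousOn (fun z => ev p z / ev c z) (sphere 0 r) := by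
  intro z hz
  exact (quo_diff hcz ((mem_sphere_zero_iff_norm.mp hz).trans_lt hr1)).continuousAt.continuousWithinAt

/-- The mean of `F z^-n`. -/
lemma cavg_F {p c : ℤ[X]} (hc : c.coeff 0 = 1) (hcz : ∀ z : ℂ, ‖z‖ < 1 → ev c z ≠ 0)
    {r : ℝ} (hr : 0 < r) (hr1 : r < 1) (n : ℕ) :
    Real.circleAverage (fun z => (z⁻¹) ^ n * (ev p z / ev c z)) 0 r = ((uu p c n : ℤ) : ℂ) := by
  have hne : ∀ z ∈ sphere (0 : ℂ) r, z ≠ 0 := by
    rintro z hz rfl
    rw [mem_sphere_zero_iff_norm, norm_zero] at hz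
    exact hr.ne hz
  have hinv : ContinuousOn (fun z : ℂ => z⁻¹) (sphere 0 r) := by
    intro z hz
    exact (continuousAt_inv₀ (hne z hz)).continuousWithinAt
  have h1 : Real.circleAverage (fun z => (z⁻¹) ^ n * (ev p z / ev c z)) 0 r =
      Real.circleAverage (fun z => (∑ k ∈ Finset.range n, ((uu p c k : ℤ) : ℂ) • (z⁻¹) ^ (n - k)) +
        ev (Rm p c n) z / ev c z) 0 r := by
    apply Real.circleAverage_congr_sphere
    intro z hz
    rw [abs_of_pos hr] at hz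
    have hz0 := hne z hz
    have hcz' := hcz z ((mem_sphere_zero_iff_norm.mp hz).trans_lt hr1)
    simp only
    rw [ev_rm p c hc n z, add_div, mul_div_cancel_right₀ _ hcz', mul_add, Finset.mul_sum]
    congr 1
    · apply Finset.sum_congr rfl
      intro k hk
      have hk' : k ≤ n := (Finset.mem_range.mp hk).le
      have h2 : (z⁻¹) ^ n = (z⁻¹) ^ (n - k) * (z⁻¹) ^ k := by
        rw [← pow_add, Nat.sub_add_cancel hk']
      rw [h2, smul_eq_mul]
      have h3 : (z⁻¹) ^ k * z ^ k = 1 := by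
        rw [← mul_pow, inv_mul_cancel₀ hz0, one_pow]
      calc (z⁻¹) ^ (n - k) * (z⁻¹) ^ k * (((uu p c k : ℤ) : ℂ) * z ^ k)
          = ((uu p c k : ℤ) : ℂ) * (z⁻¹) ^ (n - k) * ((z⁻¹) ^ k * z ^ k) := by ring
        _ = _ := by rw [h3, mul_one]
    · rw [← mul_div_assoc, ← mul_assoc, ← mul_pow, inv_mul_cancel₀ hz0, one_pow, one_mul]
  rw [h1, Real.circleAverage_fun_add, Real.circleAverage_fun_sum]
  · have h2 : ∀ k ∈ Finset.range n,
        Real.circleAverage (fun z : ℂ => ((uu p c k : ℤ) : ℂ) • (z⁻¹) ^ (n - k)) 0 r = 0 := by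
      intro k hk
      rw [Real.circleAverage_fun_smul, cavg_inv _ (by have := Finset.mem_range.mp hk; omega),
        smul_zero]
    rw [Finset.sum_eq_zero h2, zero_add]
    have h3 := (quo_dcc (p := Rm p c n) hcz hr hr1)
    rw [← abs_of_pos hr] at h3
    have h4 := h3.circleAverage
    rw [h4, ev_zero, ev_zero, hc]
    simp [uu]
  · intro k _
    apply cint_cont hr
    exact csm _ (hinv.pow _)
  · apply cint_cont hr
    apply continuousOn_finsetSum
    intro k _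
    exact csm _ (hinv.pow _)
  · exact cint_cont hr (quo_cont hcz hr1)

/-- The mean of `Re P (1 - Re z^n / r^n)`, `P = 1 + 2 F`. -/
lemma cavg_re {p c : ℤ[X]} (hc : c.coeff 0 = 1) (hp : p.coeff 0 = 1)
    (hcz : ∀ z : ℂ, ‖z‖ < 1 → ev c z ≠ 0) {r : ℝ} (hr : 0 < r) (hr1 : r < 1) {n : ℕ}
    (hn : 1 ≤ n) :
    Real.circleAverage (fun z : ℂ => (1 + 2 * (ev p z / ev c z)).re * (r ^ n - (z ^ n).re)) 0 r =
      r ^ n * (3 - r ^ n * (uu p c n : ℝ)) := by
  have hne : ∀ z ∈ sphere (0 : ℂ) r, z ≠ 0 := by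
    rintro z hz rfl
    rw [mem_sphere_zero_iff_norm, norm_zero] at hz
    exact hr.ne hz
  have hinv : ContinuousOn (fun z : ℂ => z⁻¹) (sphere 0 r) := by
    intro z hz
    exact (continuousAt_inv₀ (hne z hz)).continuousWithinAt
  have hq := quo_cont (p := p) hcz (r := r) hr1
  have hpw : ∀ m : ℕ, ContinuousOn (fun z : ℂ => z ^ m) (sphere 0 r) := fun m =>
    (continuous_pow m).continuousOn
  have hpi : ∀ m : ℕ, ContinuousOn (fun z : ℂ => (z⁻¹) ^ m) (sphere 0 r) := fun m => hinv.pow m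
  have h1 : Real.circleAverage
      (fun z : ℂ => (1 + 2 * (ev p z / ev c z)).re * (r ^ n - (z ^ n).re)) 0 r =
      Real.circleAverage (Complex.reCLM ∘ fun z : ℂ =>
        ((r : ℂ) ^ n • (1 + 2 * (ev p z / ev c z)) -
          (1 / 2 : ℂ) • (z ^ n * (1 + 2 * (ev p z / ev c z)))) -
          ((r : ℂ) ^ (2 * n) / 2) • ((z⁻¹) ^ n + 2 * ((z⁻¹) ^ n * (ev p z / ev c z)))) 0 r := by
    apply Real.circleAverage_congr_sphere
    intro z hz
    rw [abs_of_pos hr] at hz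
    have hz0 := hne z hz
    have hzn : ‖z‖ = r := mem_sphere_zero_iff_norm.mp hz
    simp only [Function.comp_apply, Complex.reCLM_apply, smul_eq_mul]
    set P : ℂ := 1 + 2 * (ev p z / ev c z) with hP
    have h2 : (z⁻¹) ^ n + 2 * ((z⁻¹) ^ n * (ev p z / ev c z)) = (z⁻¹) ^ n * P := by
      rw [hP]; ring
    rw [h2]
    have h3 : ((r : ℂ) ^ (2 * n)) * (z⁻¹) ^ n = (starRingEnd ℂ) (z ^ n) := by
      have h4 : (r : ℂ) ^ (2 * n) = (z * (starRingEnd ℂ) z) ^ n := by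
        rw [Complex.mul_conj, Complex.normSq_eq_norm_sq, hzn, pow_mul]
        push_cast
        ring
      rw [h4, mul_pow, map_pow]
      have h5 : z ^ n * (z⁻¹) ^ n = 1 := by rw [← mul_pow, mul_inv_cancel₀ hz0, one_pow]
      calc z ^ n * (starRingEnd ℂ) z ^ n * (z⁻¹) ^ n
          = (z ^ n * (z⁻¹) ^ n) * (starRingEnd ℂ) z ^ n := by ring
        _ = _ := by rw [h5, one_mul]
    have h6 : (r : ℂ) ^ n * P - 1 / 2 * (z ^ n * P) - (r : ℂ) ^ (2 * n) / 2 * ((z⁻¹) ^ n * P) =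
        (((r ^ n - (z ^ n).re : ℝ)) : ℂ) * P := by
      have h7 : z ^ n + (starRingEnd ℂ) (z ^ n) = ((2 * (z ^ n).re : ℝ) : ℂ) :=
        Complex.add_conj _
      have h8 : (r : ℂ) ^ n * P - 1 / 2 * (z ^ n * P) - (r : ℂ) ^ (2 * n) / 2 * ((z⁻¹) ^ n * P) =
        ((r : ℂ) ^ n - (z ^ n + (starRingEnd ℂ) (z ^ n)) / 2) * P := by
        rw [← h3]; ring
      rw [h8, h7]
      push_cast
      ring
    rw [h6, Complex.re_ofReal_mul]
    ring
  have hP : ContinuousOn (fun z : ℂ => 1 + 2 * (ev p z / ev c z)) (sphere 0 r) :=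
    continuousOn_const.add (continuousOn_const.mul hq)
  have hc1 : ContinuousOn (fun z : ℂ => (r : ℂ) ^ n • (1 + 2 * (ev p z / ev c z))) (sphere 0 r) :=
    csm _ hP
  have hc2 : ContinuousOn (fun z : ℂ => (1 / 2 : ℂ) • (z ^ n * (1 + 2 * (ev p z / ev c z))))
      (sphere 0 r) := csm _ ((hpw n).mul hP)
  have hc3a : ContinuousOn (fun z : ℂ => 2 * ((z⁻¹) ^ n * (ev p z / ev c z))) (sphere 0 r) :=
    continuousOn_const.mul ((hpi n).mul hq)
  have hc3 : ContinuousOn (fun z : ℂ => ((r : ℂ) ^ (2 * n) / 2) •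
      ((z⁻¹) ^ n + 2 * ((z⁻¹) ^ n * (ev p z / ev c z)))) (sphere 0 r) :=
    csm _ ((hpi n).add hc3a)
  have h10 := Complex.reCLM.circleAverage_comp_comm (c := 0) (R := r) (f := fun z : ℂ =>
        ((r : ℂ) ^ n • (1 + 2 * (ev p z / ev c z)) -
          (1 / 2 : ℂ) • (z ^ n * (1 + 2 * (ev p z / ev c z)))) -
          ((r : ℂ) ^ (2 * n) / 2) • ((z⁻¹) ^ n + 2 * ((z⁻¹) ^ n * (ev p z / ev c z))))
    (cint_cont hr ((hc1.sub hc2).sub hc3))
  rw [h1, h10, avg3 (cint_cont hr hc1) (cint_cont hr hc2) (cint_cont hr hc3),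
    Real.circleAverage_fun_smul, Real.circleAverage_fun_smul, Real.circleAverage_fun_smul,
    Real.circleAverage_fun_add (cint_cont hr (hpi n)) (cint_cont hr hc3a), cavg_inv n hn]
  have hPd : DiffContOnCl ℂ (fun z : ℂ => 1 + 2 * (ev p z / ev c z)) (ball 0 |r|) := by
    rw [abs_of_pos hr]
    have h2 : DiffContOnCl ℂ ((2 : ℂ) • fun z : ℂ => ev p z / ev c z) (ball 0 r) :=
      (quo_dcc hcz hr hr1).const_smul 2
    have h3 : DiffContOnCl ℂ (fun z : ℂ => 2 * (ev p z / ev c z)) (ball 0 r) := h2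
    exact diffContOnCl_const.add h3
  have hPd2 : DiffContOnCl ℂ (fun z : ℂ => z ^ n * (1 + 2 * (ev p z / ev c z))) (ball 0 |r|) := by
    exact (differentiable_pow n).diffContOnCl.smul hPd
  have e1 : Real.circleAverage (fun z : ℂ => 1 + 2 * (ev p z / ev c z)) 0 r = 3 := by
    rw [hPd.circleAverage, ev_zero, ev_zero, hc, hp]
    norm_num
  have e2 : Real.circleAverage (fun z : ℂ => z ^ n * (1 + 2 * (ev p z / ev c z))) 0 r = 0 := by
    rw [hPd2.circleAverage, zero_pow (by omega), zero_mul]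
  have e3 : Real.circleAverage (fun z : ℂ => 2 * ((z⁻¹) ^ n * (ev p z / ev c z))) 0 r =
      2 * ((uu p c n : ℤ) : ℂ) := by
    have h := Real.circleAverage_fun_smul (c := (0 : ℂ)) (R := r) (a := (2 : ℂ))
      (f := fun z : ℂ => (z⁻¹) ^ n * (ev p z / ev c z))
    simp only [smul_eq_mul] at h
    rw [h, cavg_F hc hcz hr hr1 n]
  rw [e1, e2, e3]
  have h9 : (r : ℂ) ^ n • (3 : ℂ) - (1 / 2 : ℂ) • (0 : ℂ) -
      ((r : ℂ) ^ (2 * n) / 2) • (0 + 2 * ((uu p c n : ℤ) : ℂ)) =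
      ((r ^ n * (3 - r ^ n * (uu p c n : ℝ)) : ℝ) : ℂ) := by
    simp only [smul_eq_mul]
    push_cast
    rw [pow_mul]
    ring
  rw [h9, Complex.reCLM_apply, Complex.ofReal_re]

lemma strict_lt {E p : ℤ[X]} (hE : E.coeff 0 = 2) (hp : p.coeff 0 = 1)
    (hz : ∀ z : ℂ, ‖z‖ < 1 → ev E z ≠ 0) (hle : ∀ z : ℂ, ‖z‖ = 1 → ‖ev p z‖ ≤ ‖ev E z‖)
    (z : ℂ) (hz1 : ‖z‖ < 1) : ‖ev p z‖ < ‖ev E z‖ := by
  refine H29.mps (u := E.map (Int.castRingHom ℂ)) (R := p.map (Int.castRingHom ℂ)) hz hle ?_ z hz1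
  have h1 := ev_zero E
  have h2 := ev_zero p
  unfold ev at h1 h2
  rw [h1, h2, hE, hp]
  norm_num

lemma re_lb {E p : ℤ[X]} {z : ℂ} (h : ‖ev p z‖ ≤ ‖ev E z‖) (hc : ev (E - p) z ≠ 0) {B : ℝ}
    (hB : ‖ev (E - p) z‖ ≤ B) :
    (‖ev E z‖ ^ 2 - ‖ev p z‖ ^ 2) ≤ B ^ 2 * (1 + 2 * (ev p z / ev (E - p) z)).re := by
  have h1 : (1 + 2 * (ev p z / ev (E - p) z)) = (ev E z + ev p z) / ev (E - p) z := by
    have h2 : ev (E - p) z = ev E z - ev p z := ev_sub E p z
    rw [h2] at hc ⊢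
    field_simp
    ring
  have hn : 0 < ‖ev (E - p) z‖ := norm_pos_iff.mpr hc
  have h3 : ((ev E z + ev p z) / ev (E - p) z).re * ‖ev (E - p) z‖ ^ 2 =
      ‖ev E z‖ ^ 2 - ‖ev p z‖ ^ 2 := by
    have h4 : (ev E z + ev p z) / ev (E - p) z = (ev E z + ev p z) *
        (starRingEnd ℂ) (ev (E - p) z) / ((‖ev (E - p) z‖ ^ 2 : ℝ) : ℂ) := by
      have h5 : ((‖ev (E - p) z‖ ^ 2 : ℝ) : ℂ) = ev (E - p) z * (starRingEnd ℂ) (ev (E - p) z) := by
        rw [Complex.mul_conj, Complex.normSq_eq_norm_sq]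
      rw [h5]
      have h6 : (starRingEnd ℂ) (ev (E - p) z) ≠ 0 := by
        rw [Ne, map_eq_zero]; exact hc
      field_simp
    rw [h4, Complex.div_ofReal_re, div_mul_cancel₀ _ (by positivity), ev_sub, map_sub]
    rw [← Complex.normSq_eq_norm_sq, ← Complex.normSq_eq_norm_sq]
    simp only [Complex.mul_re, Complex.add_re, Complex.sub_re, Complex.add_im, Complex.sub_im,
      Complex.conj_re, Complex.conj_im, Complex.normSq_apply]
    ring
  rw [h1, ← h3]
  have h7 : 0 ≤ ((ev E z + ev p z) / ev (E - p) z).re := by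
    have h8 : 0 ≤ ((ev E z + ev p z) / ev (E - p) z).re * ‖ev (E - p) z‖ ^ 2 := by
      rw [h3]
      have h9 := pow_le_pow_left₀ (norm_nonneg _) h 2
      linarith
    exact nonneg_of_mul_nonneg_left h8 (by positivity)
  rw [mul_comm]
  exact mul_le_mul_of_nonneg_right (pow_le_pow_left₀ hn.le hB 2) h7

/-- A bound of `|p|` on the closed disc. -/
lemma ev_bd (p : ℤ[X]) : ∃ B : ℝ, 0 < B ∧ ∀ z : ℂ, ‖z‖ ≤ 1 → ‖ev p z‖ ≤ B := by
  obtain ⟨C, hC⟩ := (isCompact_closedBall (0 : ℂ) 1).exists_bound_of_continuousOn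
    (ev_cont p).continuousOn
  refine ⟨max C 1, by positivity, fun z hz => ?_⟩
  exact (hC z (mem_closedBall_zero_iff.mpr hz)).trans (le_max_left _ _)

/-- `T (1 - Re z^n)` has positive mean. -/
lemma mean_pos {E p : ℤ[X]} (hle : ∀ z : ℂ, ‖z‖ = 1 → ‖ev p z‖ ≤ ‖ev E z‖)
    (hne : ∃ z : ℂ, ‖z‖ = 1 ∧ ‖ev p z‖ ≠ ‖ev E z‖) {n : ℕ} (hn : 1 ≤ n) :
    0 < Real.circleAverage
      (fun z : ℂ => (‖ev E z‖ ^ 2 - ‖ev p z‖ ^ 2) * (‖z‖ ^ n - (z ^ n).re)) 0 1 := by
  set J : ℂ → ℝ := fun z => (‖ev E z‖ ^ 2 - ‖ev p z‖ ^ 2) * (‖z‖ ^ n - (z ^ n).re) with hJ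
  have hJc : Continuous J := by
    have h1 := ev_cont E
    have h2 := ev_cont p
    have h3 : Continuous fun z : ℂ => (z ^ n).re := Complex.continuous_re.comp (continuous_pow n)
    exact ((h1.norm.pow 2).sub (h2.norm.pow 2)).mul ((continuous_norm.pow n).sub h3)
  have hJ0 : ∀ z : ℂ, ‖z‖ = 1 → 0 ≤ J z := by
    intro z hz
    have h1 := pow_le_pow_left₀ (norm_nonneg _) (hle z hz) 2
    have h2 : (z ^ n).re ≤ ‖z‖ ^ n := by
      rw [← norm_pow]
      exact Complex.re_le_norm _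
    exact mul_nonneg (by linarith) (by linarith)
  obtain ⟨z1, hz1, hz1n⟩ := hne
  have hlt : ‖ev p z1‖ < ‖ev E z1‖ := lt_of_le_of_ne (hle z1 hz1) hz1n
  -- a point with `J > 0`
  have hex : ∃ z2 : ℂ, ‖z2‖ = 1 ∧ 0 < J z2 := by
    by_cases h1 : (z1 ^ n).re < 1
    · refine ⟨z1, hz1, ?_⟩
      have h2 := pow_lt_pow_left₀ hlt (norm_nonneg _) (n := 2) (by norm_num)
      have h3 : 0 < ‖z1‖ ^ n - (z1 ^ n).re := by rw [hz1, one_pow]; linarith
      exact mul_pos (by linarith) h3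
    · have h2 : z1 ^ n = 1 := by
        have h3 : ‖z1 ^ n‖ = 1 := by rw [norm_pow, hz1, one_pow]
        have h4 : (z1 ^ n).re ≤ 1 := h3 ▸ Complex.re_le_norm _
        have h5 : (z1 ^ n).re = 1 := le_antisymm h4 (not_lt.mp h1)
        have h6 : (z1 ^ n).im = 0 := by
          have h7 := Complex.sq_norm (z1 ^ n)
          rw [h3, Complex.normSq_apply, h5] at h7
          have h8 : (z1 ^ n).im * (z1 ^ n).im = 0 := by linarith
          exact mul_self_eq_zero.mp h8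
        exact Complex.ext (by rw [h5]; simp) (by rw [h6]; simp)
      let g : ℝ → ℂ := fun t => z1 * Complex.exp (t * Complex.I)
      have hg : Continuous g := by fun_prop
      have hg0 : g 0 = z1 := by simp [g]
      have h3 : ContinuousAt (fun t : ℝ => ‖ev E (g t)‖ - ‖ev p (g t)‖) 0 := by
        have h4 := (ev_cont E).comp hg
        have h5 := (ev_cont p).comp hg
        exact (h4.norm.sub h5.norm).continuousAt
      have h4 : ∀ᶠ t : ℝ in nhds 0, 0 < ‖ev E (g t)‖ - ‖ev p (g t)‖ := by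
        apply h3.eventually (lt_mem_nhds _)
        simp only [hg0]
        linarith
      have hn0 : (0 : ℝ) < n := by exact_mod_cast hn
      have h5 : ∀ᶠ t : ℝ in nhdsWithin 0 (Set.Ioi 0), 0 < ‖ev E (g t)‖ - ‖ev p (g t)‖ :=
        h4.filter_mono nhdsWithin_le_nhds
      have h6 : ∀ᶠ t : ℝ in nhdsWithin 0 (Set.Ioi 0), t ∈ Set.Ioo (0 : ℝ) (1 / n) :=
        Ioo_mem_nhdsGT (by positivity)
      obtain ⟨t, ht1, ht2, ht3⟩ := (h5.and h6).exists
      have hgt : ‖g t‖ = 1 := by simp [g, hz1, Complex.norm_exp_ofReal_mul_I]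
      refine ⟨g t, hgt, ?_⟩
      have h7 : (g t ^ n).re < 1 := by
        have h8 : g t ^ n = Complex.exp (((n * t : ℝ) : ℂ) * Complex.I) := by
          simp only [g]
          rw [mul_pow, h2, one_mul, ← Complex.exp_nat_mul]
          congr 1
          push_cast
          ring
        rw [h8, Complex.exp_ofReal_mul_I_re]
        have h9 : n * t < 1 := by
          rw [lt_div_iff₀ hn0] at ht3
          linarith
        have h10 : 0 < n * t := by positivity
        have h11 : Real.cos (n * t) < Real.cos 0 := by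
          apply Real.cos_lt_cos_of_nonneg_of_le_pi le_rfl _ h10
          linarith [Real.pi_gt_three]
        rwa [Real.cos_zero] at h11
      have h8 := pow_lt_pow_left₀ (sub_pos.mp ht1) (norm_nonneg _) (n := 2) (by norm_num)
      have h9 : 0 < ‖g t‖ ^ n - (g t ^ n).re := by rw [hgt, one_pow]; linarith
      exact mul_pos (by linarith) h9
  obtain ⟨z2, hz2, hz2p⟩ := hex
  rw [Real.circleAverage, smul_eq_mul]
  apply mul_pos (by positivity)
  have hc : Continuous fun θ : ℝ => J (circleMap 0 1 θ) := hJc.comp (continuous_circleMap 0 1)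
  have hn1 : ∀ θ : ℝ, ‖circleMap 0 1 θ‖ = 1 := by
    intro θ
    simp
  apply intervalIntegral.integral_pos Real.two_pi_pos hc.continuousOn
  · intro θ _
    exact hJ0 _ (hn1 θ)
  · have h1 : z2 ∈ circleMap 0 1 '' Set.Icc 0 (2 * π) := by
      have h2 : z2 ∈ sphere (0 : ℂ) |1| := by simp [hz2]
      rw [← image_circleMap_Ioc] at h2
      obtain ⟨θ, hθ, h3⟩ := h2
      exact ⟨θ, Set.Ioc_subset_Icc_self hθ, h3⟩
    obtain ⟨θ, hθ, h3⟩ := h1
    exact ⟨θ, hθ, by rw [h3]; exact hz2p⟩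

lemma uu_le {E p : ℤ[X]} (hE : E.coeff 0 = 2) (hp : p.coeff 0 = 1)
    (hz : ∀ z : ℂ, ‖z‖ < 1 → ev E z ≠ 0) (hle : ∀ z : ℂ, ‖z‖ = 1 → ‖ev p z‖ ≤ ‖ev E z‖)
    (hne : ∃ z : ℂ, ‖z‖ = 1 ∧ ‖ev p z‖ ≠ ‖ev E z‖) {n : ℕ} (hn : 1 ≤ n) :
    uu p (E - p) n ≤ 2 := by
  by_contra hcon
  have hu : (3 : ℝ) ≤ (uu p (E - p) n : ℝ) := by
    have : 3 ≤ uu p (E - p) n := by omega
    exact_mod_cast this
  have hc : (E - p).coeff 0 = 1 := by rw [coeff_sub, hE, hp]; norm_num
  have hst := strict_lt hE hp hz hle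
  have hcz : ∀ z : ℂ, ‖z‖ < 1 → ev (E - p) z ≠ 0 := by
    intro z hz1 h0
    rw [ev_sub, sub_eq_zero] at h0
    have := hst z hz1
    rw [h0] at this
    exact lt_irrefl _ this
  obtain ⟨B, hB0, hB⟩ := ev_bd (E - p)
  set J : ℂ → ℝ := fun z => (‖ev E z‖ ^ 2 - ‖ev p z‖ ^ 2) * (‖z‖ ^ n - (z ^ n).re) with hJ
  have hJc : Continuous J := by
    have h1 := ev_cont E
    have h2 := ev_cont p
    have h3 : Continuous fun z : ℂ => (z ^ n).re := Complex.continuous_re.comp (continuous_pow n)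
    exact ((h1.norm.pow 2).sub (h2.norm.pow 2)).mul ((continuous_norm.pow n).sub h3)
  have hpos := mean_pos hle hne hn
  have hbd : ∀ r : ℝ, 0 < r → r < 1 →
      Real.circleAverage J 0 r ≤ 3 * B ^ 2 * (1 - r ^ n) := by
    intro r hr hr1
    have hq := quo_cont (p := p) hcz (r := r) hr1
    have h1 : Real.circleAverage J 0 r ≤ Real.circleAverage (fun z : ℂ =>
        B ^ 2 • ((1 + 2 * (ev p z / ev (E - p) z)).re * (r ^ n - (z ^ n).re))) 0 r := by
      apply Real.circleAverage_mono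
      · exact hJc.continuousOn.circleIntegrable hr.le
      · apply ContinuousOn.circleIntegrable hr.le
        have h2 : ContinuousOn (fun z : ℂ => 1 + 2 * (ev p z / ev (E - p) z)) (sphere 0 r) :=
          continuousOn_const.add (continuousOn_const.mul hq)
        have h3 : ContinuousOn (fun z : ℂ => (1 + 2 * (ev p z / ev (E - p) z)).re) (sphere 0 r) :=
          Complex.continuous_re.comp_continuousOn h2
        have h4 : Continuous fun z : ℂ => r ^ n - (z ^ n).re :=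
          continuous_const.sub (Complex.continuous_re.comp (continuous_pow n))
        simp only [smul_eq_mul]
        exact continuousOn_const.mul (h3.mul h4.continuousOn)
      · intro z hzr
        rw [abs_of_pos hr, mem_sphere_zero_iff_norm] at hzr
        have hz1 : ‖z‖ < 1 := by rw [hzr]; exact hr1
        have h5 := re_lb (hst z hz1).le (hcz z hz1) (hB z hz1.le)
        have h6 : (z ^ n).re ≤ r ^ n := by
          rw [← hzr, ← norm_pow]
          exact Complex.re_le_norm _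
        simp only [hJ, smul_eq_mul]
        rw [hzr, ← mul_assoc]
        exact mul_le_mul_of_nonneg_right h5 (by linarith)
    rw [Real.circleAverage_fun_smul, cavg_re hc hp hcz hr hr1 hn, smul_eq_mul] at h1
    have h7 : 0 < r ^ n := pow_pos hr n
    have h8 : r ^ n ≤ 1 := pow_le_one₀ hr.le hr1.le
    have h9 : r ^ n * (3 - r ^ n * (uu p (E - p) n : ℝ)) ≤ 3 * (1 - r ^ n) := by
      have h10 : r ^ n * 3 ≤ r ^ n * (uu p (E - p) n : ℝ) := mul_le_mul_of_nonneg_left hu h7.le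
      have h11 : r ^ n * (3 - r ^ n * (uu p (E - p) n : ℝ)) ≤ r ^ n * (3 * (1 - r ^ n)) :=
        mul_le_mul_of_nonneg_left (by linarith) h7.le
      have h12 : r ^ n * (3 * (1 - r ^ n)) ≤ 1 * (3 * (1 - r ^ n)) :=
        mul_le_mul_of_nonneg_right h8 (by linarith)
      linarith
    have h13 : B ^ 2 * (r ^ n * (3 - r ^ n * (uu p (E - p) n : ℝ))) ≤ B ^ 2 * (3 * (1 - r ^ n)) :=
      mul_le_mul_of_nonneg_left h9 (by positivity)
    linarith
  have hlim1 : Filter.Tendsto (fun r : ℝ => Real.circleAverage J 0 r)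
      (nhdsWithin 1 (Set.Iio 1)) (nhds (Real.circleAverage J 0 1)) :=
    ((Real.Continuous.circleAverage hJc).tendsto 1).mono_left nhdsWithin_le_nhds
  have hlim2 : Filter.Tendsto (fun r : ℝ => 3 * B ^ 2 * (1 - r ^ n))
      (nhdsWithin 1 (Set.Iio 1)) (nhds 0) := by
    have h1 : Continuous fun r : ℝ => 3 * B ^ 2 * (1 - r ^ n) := by fun_prop
    have h2 := (h1.tendsto 1).mono_left (nhdsWithin_le_nhds (s := Set.Iio (1 : ℝ)))
    simpa using h2
  have hev : ∀ᶠ r : ℝ in nhdsWithin 1 (Set.Iio 1),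
      Real.circleAverage J 0 r ≤ 3 * B ^ 2 * (1 - r ^ n) := by
    have h1 : Set.Ioo (0 : ℝ) 1 ∈ nhdsWithin (1 : ℝ) (Set.Iio 1) := Ioo_mem_nhdsLT one_pos
    filter_upwards [h1] with r hr
    exact hbd r hr.1 hr.2
  have hfin := le_of_tendsto_of_tendsto hlim1 hlim2 hev
  linarith

/-- THE ONE-VARIABLE PART OF THE DROP CASE. -/
theorem half {E p : ℤ[X]} (hE : E.coeff 0 = 2) (hp : p.coeff 0 = 1)
    (hz : ∀ z : ℂ, ‖z‖ < 1 → (E.map (Int.castRingHom ℂ)).eval z ≠ 0)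
    (hle : ∀ z : ℂ, ‖z‖ = 1 → ‖(p.map (Int.castRingHom ℂ)).eval z‖ ≤
      ‖(E.map (Int.castRingHom ℂ)).eval z‖)
    (hne : ∃ z : ℂ, ‖z‖ = 1 ∧ ‖(p.map (Int.castRingHom ℂ)).eval z‖ ≠
      ‖(E.map (Int.castRingHom ℂ)).eval z‖) :
    (p.map (Int.castRingHom ℝ)).eval (1 / 2) ≤
      3 * ((E.map (Int.castRingHom ℝ)).eval (1 / 2) - (p.map (Int.castRingHom ℝ)).eval (1 / 2)) ∧
    0 < (E.map (Int.castRingHom ℝ)).eval (1 / 2) - (p.map (Int.castRingHom ℝ)).eval (1 / 2) := by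
  have hc : (E - p).coeff 0 = 1 := by rw [coeff_sub, hE, hp]; norm_num
  have hst := strict_lt hE hp hz hle
  have hcz : ∀ z : ℂ, ‖z‖ < 1 → ev (E - p) z ≠ 0 := by
    intro z hz1 h0
    rw [ev_sub, sub_eq_zero] at h0
    have := hst z hz1
    rw [h0] at this
    exact lt_irrefl _ this
  have hre : ∀ (q : ℤ[X]) (x : ℝ), ev q (x : ℂ) = (((q.map (Int.castRingHom ℝ)).eval x : ℝ) : ℂ) := by
    intro q x
    unfold ev
    rw [eval_map, eval_map, eval₂_eq_sum, eval₂_eq_sum, Polynomial.sum, Polynomial.sum]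
    push_cast
    rfl
  set P : ℝ := (p.map (Int.castRingHom ℝ)).eval (1 / 2) with hP
  set Ev : ℝ := (E.map (Int.castRingHom ℝ)).eval (1 / 2) with hEv
  -- `c` is positive on `[0, 1)`
  have hcpos : 0 < Ev - P := by
    have h1 : Continuous fun x : ℝ => ((E - p).map (Int.castRingHom ℝ)).eval x :=
      Polynomial.continuous _
    have h2 : ((E - p).map (Int.castRingHom ℝ)).eval (1 / 2) = Ev - P := by
      rw [Polynomial.map_sub, eval_sub]
    by_contra hcon
    have h3 : ((E - p).map (Int.castRingHom ℝ)).eval (1 / 2) ≤ 0 := by rw [h2]; linarith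
    have h4 : 0 ≤ ((E - p).map (Int.castRingHom ℝ)).eval 0 := by
      rw [← coeff_zero_eq_eval_zero, coeff_map, hc]
      norm_num
    obtain ⟨x, hx, hx0⟩ := intermediate_value_Icc' (by norm_num : (0 : ℝ) ≤ 1 / 2)
      h1.continuousOn ⟨h3, h4⟩
    apply hcz (x : ℂ)
    · rw [Complex.norm_real, Real.norm_eq_abs, abs_of_nonneg hx.1]
      linarith [hx.2]
    · rw [hre]
      simp only at hx0
      rw [hx0]
      simp
  refine ⟨?_, hcpos⟩
  -- the power series at `1/2`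
  obtain ⟨R, hR⟩ : ∃ R : NNReal, (R : ℝ) = 3 / 4 := ⟨⟨3 / 4, by norm_num⟩, rfl⟩
  have hdc : DiffContOnCl ℂ (fun z => ev p z / ev (E - p) z) (ball 0 (R : ℝ)) := by
    rw [hR]
    exact quo_dcc hcz (by norm_num) (by norm_num)
  have hR0 : 0 < R := by
    rw [← NNReal.coe_pos, hR]
    norm_num
  have hps := hdc.hasFPowerSeriesOnBall hR0
  have hy : ((1 / 2 : ℝ) : ℂ) ∈ Metric.eball (0 : ℂ) (R : ENNReal) := by
    rw [Metric.emetric_ball_nnreal, mem_ball_zero_iff, hR, Complex.norm_real]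
    norm_num
  have hsum := hps.hasSum hy
  rw [zero_add] at hsum
  have hterm : ∀ n : ℕ, (cauchyPowerSeries (fun z => ev p z / ev (E - p) z) 0 (R : ℝ) n
      fun _ => ((1 / 2 : ℝ) : ℂ)) = (((uu p (E - p) n : ℝ) * (1 / 2) ^ n : ℝ) : ℂ) := by
    intro n
    rw [cauchyPowerSeries_apply, hR]
    have h1 : Real.circleAverage (fun z : ℂ => (((1 / 2 : ℝ) : ℂ) / (z - 0)) ^ n •
        (ev p z / ev (E - p) z)) 0 (3 / 4) = (2 * π * Complex.I : ℂ)⁻¹ •
          ∮ z in C(0, 3 / 4), (((1 / 2 : ℝ) : ℂ) / (z - 0)) ^ n •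
            (z - 0)⁻¹ • (ev p z / ev (E - p) z) := by
      rw [Real.circleAverage_eq_circleIntegral (by norm_num)]
      congr 2
      funext z
      rw [smul_comm]
    rw [← h1]
    have h2 : (fun z : ℂ => (((1 / 2 : ℝ) : ℂ) / (z - 0)) ^ n • (ev p z / ev (E - p) z)) =
        fun z : ℂ => (((1 / 2 : ℝ) : ℂ) ^ n) • ((z⁻¹) ^ n * (ev p z / ev (E - p) z)) := by
      funext z
      simp only [smul_eq_mul, sub_zero, div_eq_mul_inv, mul_pow]
      ring
    rw [h2, Real.circleAverage_fun_smul, cavg_F hc hcz (by norm_num) (by norm_num) n]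
    rw [smul_eq_mul]
    push_cast
    ring
  rw [hre, hre] at hsum
  have hsum2 : HasSum (fun n : ℕ => (((uu p (E - p) n : ℝ) * (1 / 2) ^ n : ℝ) : ℂ))
      (((p.map (Int.castRingHom ℝ)).eval (1 / 2) /
        ((E - p).map (Int.castRingHom ℝ)).eval (1 / 2) : ℝ) : ℂ) := by
    have h3 := hsum
    simp only [hterm] at h3
    rw [Complex.ofReal_div]
    exact h3
  have hsum3 := Complex.hasSum_ofReal.mp hsum2
  have hg : HasSum (fun n : ℕ => 2 * (1 / 2 : ℝ) ^ n - (if n = 0 then 1 else 0)) (2 * 2 - 1) :=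
    (hasSum_geometric_two.mul_left 2).sub (hasSum_ite_eq 0 1)
  have hcmp := hasSum_le (fun n => ?_) hsum3 hg
  · rw [Polynomial.map_sub, eval_sub, ← hP, ← hEv, div_le_iff₀ hcpos] at hcmp
    linarith
  · rcases Nat.eq_zero_or_pos n with h | h
    · subst h
      have h4 : uu p (E - p) 0 = 1 := by
        unfold uu
        simp [Rm, hp]
      rw [h4]
      norm_num
    · have h5 : (uu p (E - p) n : ℝ) ≤ 2 := by
        exact_mod_cast uu_le hE hp hz hle hne h
      rw [if_neg (by omega), sub_zero]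
      exact mul_le_mul_of_nonneg_right h5 (by positivity)

end Pool.Agent.B5.H87.B3d
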